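import Pool.Agent.W816.CB.HatOne

/-!
# Refinement of the hat functions (part CB-REF)
-/

set_option autoImplicit false

namespace Pool.Agent.W816.CB

open Pool.Agent.W761.CB

/-- **CB-REF** -/
theorem cb_ref : S_REF := by
  intro n L ℓ hLf m hm hL
  have hLp : 0 < L := hLf.out
  have hℓ : 0 < ℓ := by
    have h1 : (0 : ℝ) < (2 * m : ℕ) := by exact_mod_cast (by omega : 0 < 2 * m)
    rw [hL] at hLp
    exact (pos_iff_pos_of_mul_pos hLp).1 h1
  have h2ℓ : 0 < 2 * ℓ := by positivity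
  have hL' : L = m * (2 * ℓ) := by rw [hL]; push_cast; ring
  refine ⟨fun i' i => ∏ c, ht L (2 * ℓ) ((((((i c : ℕ) : ℝ)) * ℓ : ℝ) : AddCircle L) -
    (((((i' c : ℕ) : ℝ)) * (2 * ℓ) : ℝ) : AddCircle L)), ?_, ?_, ?_⟩
  · intro i' i
    exact Finset.prod_nonneg fun c _ => ht_nonneg _
  · intro i
    have h := Finset.prod_univ_sum (fun _ : Fin n => (Finset.univ : Finset (Fin m)))
      (fun c k => ht L (2 * ℓ) ((((((i c : ℕ) : ℝ)) * ℓ : ℝ) : AddCircle L) -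
        (((((k : ℕ) : ℝ)) * (2 * ℓ) : ℝ) : AddCircle L)))
    rw [Fintype.piFinset_univ] at h
    rw [← h]
    exact Finset.prod_eq_one fun c _ => pou hm h2ℓ hL' _
  · intro i' x
    have h := Finset.prod_univ_sum (fun _ : Fin n => (Finset.univ : Finset (Fin (2 * m))))
      (fun c k => ht L (2 * ℓ) ((((((k : ℕ) : ℝ)) * ℓ : ℝ) : AddCircle L) -
          (((((i' c : ℕ) : ℝ)) * (2 * ℓ) : ℝ) : AddCircle L)) *
        ht L ℓ (x c - (((((k : ℕ) : ℝ)) * ℓ : ℝ) : AddCircle L)))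
    rw [Fintype.piFinset_univ] at h
    have e : ∀ i : Fin n → Fin (2 * m),
        (∏ c, ht L (2 * ℓ) ((((((i c : ℕ) : ℝ)) * ℓ : ℝ) : AddCircle L) -
          (((((i' c : ℕ) : ℝ)) * (2 * ℓ) : ℝ) : AddCircle L))) *
        hat n L ℓ (fun c => (i c : ℕ)) x =
        ∏ c, (ht L (2 * ℓ) ((((((i c : ℕ) : ℝ)) * ℓ : ℝ) : AddCircle L) -
          (((((i' c : ℕ) : ℝ)) * (2 * ℓ) : ℝ) : AddCircle L)) *
        ht L ℓ (x c - (((((i c : ℕ) : ℝ)) * ℓ : ℝ) : AddCircle L))) := by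
      intro i
      rw [Finset.prod_mul_distrib]
      rfl
    rw [Finset.sum_congr rfl fun i _ => e i, ← h]
    unfold hat
    apply Finset.prod_congr rfl
    intro c _
    have h3 := interp hm hℓ hL (x c) ((i' c : ℕ) : ℤ)
    rw [Int.cast_natCast] at h3
    exact h3

end Pool.Agent.W816.CB
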