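import Pool.Agent.W816.CB.HatOne

/-!
# Smoothness of the hat functions (part CB-SM)
-/

set_option autoImplicit false

namespace Pool.Agent.W816.CB

open Pool.Agent.W761.CB

/-- product over a function space -/
lemma sum_prod_eq {n m : ℕ} (a : Fin n → Fin m → ℝ) :
    ∑ i : Fin n → Fin m, ∏ c, a c (i c) = ∏ c, ∑ k, a c k := by
  have h := Finset.prod_univ_sum (fun _ : Fin n => (Finset.univ : Finset (Fin m))) a
  rw [Fintype.piFinset_univ] at h
  exact h.symm

/-- variation of products -/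
lemma var_prod {m : ℕ} : ∀ (n : ℕ) (a b : Fin n → Fin m → ℝ), (∀ c k, 0 ≤ a c k) →
    (∀ c k, 0 ≤ b c k) → (∀ c, ∑ k, a c k = 1) → (∀ c, ∑ k, b c k = 1) →
    ∑ i : Fin n → Fin m, |∏ c, a c (i c) - ∏ c, b c (i c)| ≤ ∑ c, ∑ k, |a c k - b c k|
  | 0, a, b, _, _, _, _ => by simp
  | n + 1, a, b, ha, hb, hsa, hsb => by
    have ih := var_prod n (fun c => a c.succ) (fun c => b c.succ) (fun c k => ha _ _)
      (fun c k => hb _ _) (fun c => hsa _) (fun c => hsb _)
    rw [Fin.sum_univ_succ]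
    have e1 : ∑ i : Fin (n + 1) → Fin m, |∏ c, a c (i c) - ∏ c, b c (i c)| =
        ∑ p : Fin m × (Fin n → Fin m), |a 0 p.1 * ∏ c : Fin n, a c.succ (p.2 c) -
          b 0 p.1 * ∏ c : Fin n, b c.succ (p.2 c)| := by
      rw [← (Fin.consEquiv (fun _ : Fin (n + 1) => Fin m)).sum_comp]
      apply Finset.sum_congr rfl
      intro p _
      rw [Fin.prod_univ_succ, Fin.prod_univ_succ]
      simp [Fin.consEquiv]
    rw [e1, Fintype.sum_prod_type]
    have hA : ∑ i : Fin n → Fin m, ∏ c : Fin n, a c.succ (i c) = 1 := by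
      rw [sum_prod_eq (fun c => a c.succ)]
      exact Finset.prod_eq_one fun c _ => hsa _
    have hAn : ∀ i : Fin n → Fin m, 0 ≤ ∏ c : Fin n, a c.succ (i c) := fun i =>
      Finset.prod_nonneg fun c _ => ha _ _
    have hpt : ∀ (k : Fin m) (i : Fin n → Fin m), |a 0 k * ∏ c : Fin n, a c.succ (i c) -
        b 0 k * ∏ c : Fin n, b c.succ (i c)| ≤
        |a 0 k - b 0 k| * ∏ c : Fin n, a c.succ (i c) +
        b 0 k * |∏ c : Fin n, a c.succ (i c) - ∏ c : Fin n, b c.succ (i c)| := by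
      intro k i
      have e : a 0 k * ∏ c : Fin n, a c.succ (i c) - b 0 k * ∏ c : Fin n, b c.succ (i c) =
          (a 0 k - b 0 k) * ∏ c : Fin n, a c.succ (i c) +
          b 0 k * (∏ c : Fin n, a c.succ (i c) - ∏ c : Fin n, b c.succ (i c)) := by ring
      rw [e]
      refine (abs_add_le _ _).trans ?_
      rw [abs_mul, abs_mul, abs_of_nonneg (hAn i), abs_of_nonneg (hb 0 k)]
    refine (Finset.sum_le_sum fun k _ => Finset.sum_le_sum fun i _ => hpt k i).trans ?_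
    have e2 : ∀ k : Fin m, ∑ i : Fin n → Fin m, (|a 0 k - b 0 k| * ∏ c : Fin n, a c.succ (i c) +
        b 0 k * |∏ c : Fin n, a c.succ (i c) - ∏ c : Fin n, b c.succ (i c)|) =
        |a 0 k - b 0 k| + b 0 k * ∑ i : Fin n → Fin m,
          |∏ c : Fin n, a c.succ (i c) - ∏ c : Fin n, b c.succ (i c)| := by
      intro k
      rw [Finset.sum_add_distrib, ← Finset.mul_sum, ← Finset.mul_sum, hA, mul_one]
    rw [Finset.sum_congr rfl fun k _ => e2 k, Finset.sum_add_distrib, ← Finset.sum_mul, hsb 0,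
      one_mul]
    linarith

lemma norm_coe_le {L : ℝ} (t : ℝ) : ‖(t : AddCircle L)‖ ≤ |t| := by
  rw [← Real.norm_eq_abs]
  exact QuotientAddGroup.norm_mk_le_norm

/-- **CB-SM** -/
theorem cb_sm (hHAT : S_HAT) : S_SM := by
  intro n L ℓ hLf m hm hL x z
  have hLp : 0 < L := hLf.out
  have hℓ : 0 < ℓ := by
    have h1 : (0 : ℝ) < (m : ℝ) := by exact_mod_cast (by omega : 0 < m)
    rw [hL] at hLp
    exact (pos_iff_pos_of_mul_pos hLp).1 h1
  rcases (by omega : m = 1 ∨ 2 ≤ m) with h1 | h2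
  · have h5 := (hHAT n L ℓ m hm hL).2.2.2.2 h1
    have e : ∀ i : Fin n → Fin m, (hat n L ℓ (fun c => (i c : ℕ)) (x + pr L z) -
      hat n L ℓ (fun c => (i c : ℕ)) x) ^ 2 = 0 := by
      intro i
      rw [h5, h5]; ring
    rw [Finset.sum_congr rfl fun i _ => e i, Finset.sum_const_zero]
    positivity
  · obtain ⟨a, ha⟩ : ∃ a : Fin n → Fin m → ℝ, a = fun (c : Fin n) (k : Fin m) =>
      ht L ℓ ((x + pr L z) c - (((((k : ℕ) : ℝ)) * ℓ : ℝ) : AddCircle L)) := ⟨_, rfl⟩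
    obtain ⟨b, hb⟩ : ∃ b : Fin n → Fin m → ℝ, b = fun (c : Fin n) (k : Fin m) =>
      ht L ℓ (x c - (((((k : ℕ) : ℝ)) * ℓ : ℝ) : AddCircle L)) := ⟨_, rfl⟩
    have ha0 : ∀ c k, 0 ≤ a c k := fun c k => by rw [ha]; exact ht_nonneg _
    have hb0 : ∀ c k, 0 ≤ b c k := fun c k => by rw [hb]; exact ht_nonneg _
    have ha1 : ∀ c, ∑ k, a c k = 1 := fun c => by rw [ha]; exact pou hm hℓ hL _
    have hb1 : ∀ c, ∑ k, b c k = 1 := fun c => by rw [hb]; exact pou hm hℓ hL _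
    have hA : ∀ i : Fin n → Fin m, hat n L ℓ (fun c => (i c : ℕ)) (x + pr L z) =
        ∏ c, a c (i c) := fun i => by rw [ha]; rfl
    have hB : ∀ i : Fin n → Fin m, hat n L ℓ (fun c => (i c : ℕ)) x =
        ∏ c, b c (i c) := fun i => by rw [hb]; rfl
    have hv := var_prod n a b ha0 hb0 ha1 hb1
    have hc : ∀ c, ∑ k, |a c k - b c k| ≤ 4 * (|z c| / ℓ) := by
      intro c
      rw [ha, hb]
      refine (var_one h2 hℓ hL ((x + pr L z) c) (x c)).trans ?_
      have e : (x + pr L z) c - x c = ((z c : ℝ) : AddCircle L) := by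
        simp [pr]
      rw [e]
      have := norm_coe_le (L := L) (z c)
      gcongr
    obtain ⟨D, hD⟩ : ∃ D : ℝ, D = ∑ i : Fin n → Fin m, |∏ c, a c (i c) - ∏ c, b c (i c)| :=
      ⟨_, rfl⟩
    have hD0 : 0 ≤ D := by rw [hD]; exact Finset.sum_nonneg fun _ _ => abs_nonneg _
    have hD1 : D ≤ 4 * ((∑ c, |z c|) / ℓ) := by
      rw [hD]
      refine (hv.trans (Finset.sum_le_sum fun c _ => hc c)).trans (le_of_eq ?_)
      rw [← Finset.mul_sum, Finset.sum_div]
    have hD2 : D ≤ 2 := by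
      rw [hD]
      have : ∀ i : Fin n → Fin m, |∏ c, a c (i c) - ∏ c, b c (i c)| ≤
          ∏ c, a c (i c) + ∏ c, b c (i c) := by
        intro i
        have q1 : 0 ≤ ∏ c, a c (i c) := Finset.prod_nonneg fun c _ => ha0 _ _
        have q2 : 0 ≤ ∏ c, b c (i c) := Finset.prod_nonneg fun c _ => hb0 _ _
        rw [abs_le]
        constructor <;> linarith
      refine (Finset.sum_le_sum fun i _ => this i).trans (le_of_eq ?_)
      rw [Finset.sum_add_distrib, sum_prod_eq, sum_prod_eq,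
        Finset.prod_eq_one fun c _ => ha1 c, Finset.prod_eq_one fun c _ => hb1 c]
      norm_num
    have hD3 : D ≤ 4 * min 1 ((∑ c, |z c|) / ℓ) := by
      rcases le_total 1 ((∑ c, |z c|) / ℓ) with h | h
      · rw [min_eq_left h]; linarith
      · rw [min_eq_right h]; exact hD1
    have e : ∀ i : Fin n → Fin m, (hat n L ℓ (fun c => (i c : ℕ)) (x + pr L z) -
      hat n L ℓ (fun c => (i c : ℕ)) x) ^ 2 = |∏ c, a c (i c) - ∏ c, b c (i c)| ^ 2 := by
      intro i
      rw [hA, hB, sq_abs]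
    rw [Finset.sum_congr rfl fun i _ => e i]
    have h6 : ∑ i : Fin n → Fin m, |∏ c, a c (i c) - ∏ c, b c (i c)| ^ 2 ≤ D ^ 2 := by
      rw [hD]
      exact Finset.sum_sq_le_sq_sum_of_nonneg (fun _ _ => abs_nonneg _)
    refine h6.trans ?_
    calc D ^ 2 ≤ (4 * min 1 ((∑ c, |z c|) / ℓ)) ^ 2 := by gcongr
      _ = 16 * (min 1 ((∑ c, |z c|) / ℓ)) ^ 2 := by ring

end Pool.Agent.W816.CB
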