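import Pool.Agent.W761.CB.Stms

/-!
# Hat functions on the circle: explicit formula, partition of unity, interpolation
-/

set_option autoImplicit false

namespace Pool.Agent.W816.CB

open Pool.Agent.W761.CB

/-- indicator of divisibility -/
noncomputable def dl (m : ℕ) (k : ℤ) : ℝ := if (m : ℤ) ∣ k then 1 else 0

lemma dl_nonneg (m : ℕ) (k : ℤ) : 0 ≤ dl m k := by
  unfold dl; split_ifs <;> norm_num

lemma sum_dl {m : ℕ} (hm : 1 ≤ m) (j : ℤ) (F : ℤ → ℝ)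
    (hF : ∀ a b : ℤ, (m : ℤ) ∣ a - b → F a = F b) :
    ∑ k : Fin m, F ((k : ℕ) : ℤ) * dl m (((k : ℕ) : ℤ) - j) = F j := by
  have hm0 : (0 : ℤ) < m := by exact_mod_cast hm
  have h0 : 0 ≤ j % m := Int.emod_nonneg _ hm0.ne'
  have h1 : j % m < m := Int.emod_lt_of_pos _ hm0
  have hd : (m : ℤ) ∣ (j % m) - j := by
    refine ⟨-(j / m), ?_⟩
    have := Int.emod_add_mul_ediv j m
    linear_combination this
  rw [Finset.sum_eq_single (⟨(j % m).toNat, by omega⟩ : Fin m)]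
  · have e : (((j % m).toNat : ℕ) : ℤ) = j % m := Int.toNat_of_nonneg h0
    simp only [e]
    rw [dl, if_pos hd, mul_one]
    exact hF _ _ hd
  · intro k _ hk
    rw [dl, if_neg, mul_zero]
    intro h
    apply hk
    apply Fin.ext
    have h2 : j % m = ((k : ℕ) : ℤ) % m := Int.modEq_of_dvd h
    have h3 : ((k : ℕ) : ℤ) % m = k := Int.emod_eq_of_lt (by positivity) (by exact_mod_cast k.2)
    rw [h3] at h2
    simp only
    omega
  · intro h
    exact absurd (Finset.mem_univ _) h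

lemma sum_dl_one {m : ℕ} (hm : 1 ≤ m) (j : ℤ) :
    ∑ k : Fin m, dl m (((k : ℕ) : ℤ) - j) = 1 := by
  have := sum_dl hm j (fun _ => 1) (fun _ _ _ => rfl)
  simpa using this

lemma coe_congr {L a b : ℝ} (n : ℤ) (h : a - b = n * L) : (a : AddCircle L) = b := by
  rw [← sub_eq_zero, ← AddCircle.coe_sub, AddCircle.coe_eq_zero_iff]
  exact ⟨n, by rw [h, zsmul_eq_mul]⟩

lemma ht_nonneg {L ℓ : ℝ} (y : AddCircle L) : 0 ≤ ht L ℓ y := by
  unfold ht; split_ifs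
  · exact le_max_left _ _
  · norm_num

/-- explicit formula -/
lemma ht_explicit {L ℓ : ℝ} {m : ℕ} (hm : 2 ≤ m) (hℓ : 0 < ℓ) (hL : L = m * ℓ) (j i : ℤ) {s : ℝ}
    (hs0 : 0 ≤ s) (hs1 : s ≤ 1) :
    ht L ℓ (((((j : ℝ) + s) * ℓ : ℝ) : AddCircle L) - (((i : ℝ) * ℓ : ℝ) : AddCircle L)) =
      (1 - s) * dl m (i - j) + s * dl m (i - (j + 1)) := by
  have hm0 : (0 : ℤ) < m := by exact_mod_cast (by omega : 0 < m)
  have hmR : (2 : ℝ) ≤ m := by exact_mod_cast hm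
  have hL2 : 2 * ℓ ≤ L := by rw [hL]; exact mul_le_mul_of_nonneg_right hmR hℓ.le
  have hLp : 0 < L := by linarith
  have hlt : ℓ < L := by linarith
  obtain ⟨q, hq⟩ : ∃ q : ℤ, q = (i - j) / m := ⟨_, rfl⟩
  obtain ⟨r, hr⟩ : ∃ r : ℤ, r = (i - j) % m := ⟨_, rfl⟩
  have hqr : i - j = r + m * q := by
    rw [hq, hr]; exact (Int.emod_add_mul_ediv _ _).symm
  have hr0 : 0 ≤ r := by rw [hr]; exact Int.emod_nonneg _ hm0.ne'
  have hr1 : r < m := by rw [hr]; exact Int.emod_lt_of_pos _ hm0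
  have hqrR : (i : ℝ) - j = r + m * q := by exact_mod_cast hqr
  have hpt : (((((j : ℝ) + s) * ℓ : ℝ) : AddCircle L) - (((i : ℝ) * ℓ : ℝ) : AddCircle L)) =
      (((s - r) * ℓ : ℝ) : AddCircle L) := by
    rw [← AddCircle.coe_sub]
    apply coe_congr (-q)
    rw [hL]
    push_cast
    linear_combination (-ℓ) * hqrR
  rw [hpt]
  unfold ht
  rw [if_pos hlt]
  have d0 : (m : ℤ) ∣ (i - j) ↔ r = 0 := by
    rw [hqr]
    constructor
    · intro h
      have h2 : (m : ℤ) ∣ r := (Int.dvd_add_left (Dvd.intro _ rfl)).1 h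
      exact Int.eq_zero_of_dvd_of_nonneg_of_lt hr0 hr1 h2
    · rintro rfl
      exact ⟨q, by ring⟩
  have d1 : (m : ℤ) ∣ (i - (j + 1)) ↔ r = 1 := by
    have e : i - (j + 1) = (r - 1) + m * q := by linear_combination hqr
    rw [e]
    constructor
    · intro h
      have h2 : (m : ℤ) ∣ (r - 1) := (Int.dvd_add_left (Dvd.intro _ rfl)).1 h
      by_contra hne
      rcases lt_or_gt_of_ne hne with h3 | h3
      · have h4 : r = 0 := by omega
        rw [h4] at h2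
        have h5 : (m : ℤ) ∣ 1 := by
          have := (dvd_neg).2 h2
          simpa using this
        have := Int.le_of_dvd (by norm_num) h5
        omega
      · have := Int.le_of_dvd (by omega) h2
        omega
    · intro h
      exact ⟨q, by rw [h]; ring⟩
  unfold dl
  rcases (by omega : r = 0 ∨ r = 1 ∨ 2 ≤ r) with h | h | h
  · rw [if_pos (d0.2 h), if_neg (fun h' => by have := d1.1 h'; omega), h]
    have : ‖(((s - ((0 : ℤ) : ℝ)) * ℓ : ℝ) : AddCircle L)‖ = s * ℓ := by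
      rw [(AddCircle.norm_coe_eq_abs_iff L hLp.ne').2]
      · rw [Int.cast_zero, sub_zero, abs_of_nonneg (by positivity)]
      · rw [Int.cast_zero, sub_zero, abs_of_nonneg (by positivity), abs_of_pos hLp]
        nlinarith
    rw [this, mul_div_cancel_right₀ _ hℓ.ne', max_eq_right (by linarith)]
    ring
  · rw [if_neg (fun h' => by have := d0.1 h'; omega), if_pos (d1.2 h), h]
    have hneg : (s - ((1 : ℤ) : ℝ)) * ℓ ≤ 0 := by
      rw [Int.cast_one]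
      exact mul_nonpos_of_nonpos_of_nonneg (by linarith) hℓ.le
    have : ‖(((s - ((1 : ℤ) : ℝ)) * ℓ : ℝ) : AddCircle L)‖ = (1 - s) * ℓ := by
      rw [(AddCircle.norm_coe_eq_abs_iff L hLp.ne').2]
      · rw [abs_of_nonpos hneg, Int.cast_one]; ring
      · rw [abs_of_nonpos hneg, abs_of_pos hLp, Int.cast_one]
        nlinarith
    rw [this, mul_div_cancel_right₀ _ hℓ.ne', max_eq_right (by linarith)]
    ring
  · rw [if_neg (fun h' => by have := d0.1 h'; omega), if_neg (fun h' => by have := d1.1 h'; omega)]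
    have hge : ℓ ≤ ‖(((s - (r : ℝ)) * ℓ : ℝ) : AddCircle L)‖ := by
      rw [AddCircle.norm_eq]
      obtain ⟨n, hn⟩ : ∃ n : ℤ, n = round (L⁻¹ * ((s - (r : ℝ)) * ℓ)) := ⟨_, rfl⟩
      rw [← hn, hL]
      have e : (s - (r : ℝ)) * ℓ - n * (m * ℓ) = (s - r - n * m) * ℓ := by ring
      rw [e, abs_mul, abs_of_pos hℓ]
      have h1 : 1 ≤ |s - r - n * m| := by
        rcases le_or_gt 0 n with h0 | h0
        · have h2 : (0 : ℝ) ≤ n := by exact_mod_cast h0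
          have h3 : (2 : ℝ) ≤ r := by exact_mod_cast h
          rw [abs_of_nonpos (by nlinarith)]
          nlinarith
        · have h2 : (n : ℝ) ≤ -1 := by exact_mod_cast (by omega : n ≤ -1)
          have h3 : (r : ℝ) ≤ m - 1 := by
            have : r ≤ (m : ℤ) - 1 := by omega
            exact_mod_cast this
          have h4 : (m : ℝ) ≤ -(n * m) := by nlinarith
          rw [abs_of_nonneg (by linarith)]
          linarith
      nlinarith
    rw [max_eq_left]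
    · ring
    · rw [sub_nonpos, le_div_iff₀ hℓ, one_mul]
      exact hge

/-- coordinates on the circle -/
lemma exists_coord {L ℓ : ℝ} (hℓ : 0 < ℓ) (y : AddCircle L) :
    ∃ (j : ℤ) (s : ℝ), 0 ≤ s ∧ s ≤ 1 ∧ y = ((((j : ℝ) + s) * ℓ : ℝ) : AddCircle L) := by
  obtain ⟨t, rfl⟩ := QuotientAddGroup.mk_surjective y
  refine ⟨⌊t / ℓ⌋, Int.fract (t / ℓ), Int.fract_nonneg _, (Int.fract_lt_one _).le, ?_⟩
  rw [Int.floor_add_fract, div_mul_cancel₀ _ hℓ.ne']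

/-- partition of unity -/
lemma pou {L ℓ : ℝ} {m : ℕ} (hm : 1 ≤ m) (hℓ : 0 < ℓ) (hL : L = m * ℓ) (y : AddCircle L) :
    ∑ k : Fin m, ht L ℓ (y - ((((k : ℕ) : ℝ) * ℓ : ℝ) : AddCircle L)) = 1 := by
  rcases (by omega : m = 1 ∨ 2 ≤ m) with rfl | h2
  · have : ¬ ℓ < L := by rw [hL]; simp
    simp [ht, this]
  · obtain ⟨j, s, hs0, hs1, rfl⟩ := exists_coord hℓ y
    have e : ∀ k : Fin m, ht L ℓ (((((j : ℝ) + s) * ℓ : ℝ) : AddCircle L) -
        ((((k : ℕ) : ℝ) * ℓ : ℝ) : AddCircle L)) =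
        (1 - s) * dl m (((k : ℕ) : ℤ) - j) + s * dl m (((k : ℕ) : ℤ) - (j + 1)) := by
      intro k
      have := ht_explicit h2 hℓ hL j ((k : ℕ) : ℤ) hs0 hs1
      simpa using this
    rw [Finset.sum_congr rfl fun k _ => e k, Finset.sum_add_distrib, ← Finset.mul_sum,
      ← Finset.mul_sum, sum_dl_one hm, sum_dl_one hm]
    ring

/-- affine interpolation of a coarse hat function -/
lemma ht_affine {L ℓ : ℝ} {m : ℕ} (hm : 1 ≤ m) (hℓ : 0 < ℓ) (hL : L = (2 * m : ℕ) * ℓ) (j i : ℤ)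
    {s : ℝ} (hs0 : 0 ≤ s) (hs1 : s ≤ 1) :
    ht L (2 * ℓ) (((((j : ℝ) + s) * ℓ : ℝ) : AddCircle L) -
        (((i : ℝ) * (2 * ℓ) : ℝ) : AddCircle L)) =
      (1 - s) * ht L (2 * ℓ) ((((j : ℝ) * ℓ : ℝ) : AddCircle L) -
        (((i : ℝ) * (2 * ℓ) : ℝ) : AddCircle L)) +
      s * ht L (2 * ℓ) (((((j + 1 : ℤ) : ℝ) * ℓ : ℝ) : AddCircle L) -
        (((i : ℝ) * (2 * ℓ) : ℝ) : AddCircle L)) := by
  have hL' : L = m * (2 * ℓ) := by rw [hL]; push_cast; ring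
  rcases (by omega : m = 1 ∨ 2 ≤ m) with rfl | h2
  · have : ¬ 2 * ℓ < L := by rw [hL']; simp
    simp [ht, this]
  · have h2ℓ : 0 < 2 * ℓ := by positivity
    -- the value on the coarse interval
    have key : ∀ (j' : ℤ) (x : ℝ), 0 ≤ x → x ≤ 1 →
        ht L (2 * ℓ) (((((j' : ℝ) + x) * (2 * ℓ) : ℝ) : AddCircle L) -
          (((i : ℝ) * (2 * ℓ) : ℝ) : AddCircle L)) =
        (1 - x) * dl m (i - j') + x * dl m (i - (j' + 1)) := fun j' x h0 h1 =>
      ht_explicit h2 h2ℓ hL' j' i h0 h1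
    rcases Int.even_or_odd' j with ⟨c, hc | hc⟩
    · have e1 : (((j : ℝ) + s) * ℓ : ℝ) = ((c : ℝ) + s / 2) * (2 * ℓ) := by
        rw [hc]; push_cast; ring
      have e2 : ((j : ℝ) * ℓ : ℝ) = ((c : ℝ) + 0) * (2 * ℓ) := by
        rw [hc]; push_cast; ring
      have e3 : (((j + 1 : ℤ) : ℝ) * ℓ : ℝ) = ((c : ℝ) + 1 / 2) * (2 * ℓ) := by
        rw [hc]; push_cast; ring
      rw [e1, e2, e3, key c _ (by linarith) (by linarith), key c _ le_rfl (by norm_num),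
        key c _ (by norm_num) (by norm_num)]
      ring
    · have e1 : (((j : ℝ) + s) * ℓ : ℝ) = ((c : ℝ) + (1 + s) / 2) * (2 * ℓ) := by
        rw [hc]; push_cast; ring
      have e2 : ((j : ℝ) * ℓ : ℝ) = ((c : ℝ) + 1 / 2) * (2 * ℓ) := by
        rw [hc]; push_cast; ring
      have e3 : (((j + 1 : ℤ) : ℝ) * ℓ : ℝ) = ((c : ℝ) + 1) * (2 * ℓ) := by
        rw [hc]; push_cast; ring
      rw [e1, e2, e3, key c _ (by linarith) (by linarith), key c _ (by norm_num) (by norm_num),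
        key c _ (by norm_num) le_rfl]
      ring

/-- interpolation on the circle -/
lemma interp {L ℓ : ℝ} {m : ℕ} (hm : 1 ≤ m) (hℓ : 0 < ℓ) (hL : L = (2 * m : ℕ) * ℓ)
    (y : AddCircle L) (i : ℤ) :
    ht L (2 * ℓ) (y - (((i : ℝ) * (2 * ℓ) : ℝ) : AddCircle L)) =
      ∑ k : Fin (2 * m), ht L (2 * ℓ) (((((k : ℕ) : ℝ) * ℓ : ℝ) : AddCircle L) -
          (((i : ℝ) * (2 * ℓ) : ℝ) : AddCircle L)) *
        ht L ℓ (y - ((((k : ℕ) : ℝ) * ℓ : ℝ) : AddCircle L)) := by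
  obtain ⟨j, s, hs0, hs1, rfl⟩ := exists_coord hℓ y
  have h2 : 2 ≤ 2 * m := by omega
  obtain ⟨F, hFd⟩ : ∃ F : ℤ → ℝ, F = fun a : ℤ => ht L (2 * ℓ) ((((a : ℝ) * ℓ : ℝ) : AddCircle L) -
          (((i : ℝ) * (2 * ℓ) : ℝ) : AddCircle L)) := ⟨_, rfl⟩
  have hF : ∀ a b : ℤ, ((2 * m : ℕ) : ℤ) ∣ a - b → F a = F b := by
    rintro a b ⟨n, hn⟩
    have hn' : (a : ℝ) - b = ((2 * m : ℕ) : ℝ) * n := by exact_mod_cast hn
    rw [hFd]
    simp only
    rw [coe_congr (a := (a : ℝ) * ℓ) (b := (b : ℝ) * ℓ) n]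
    rw [hL]
    linear_combination ℓ * hn'
  rw [ht_affine hm hℓ hL j i hs0 hs1]
  have e : ∀ k : Fin (2 * m), ht L (2 * ℓ) (((((k : ℕ) : ℝ) * ℓ : ℝ) : AddCircle L) -
          (((i : ℝ) * (2 * ℓ) : ℝ) : AddCircle L)) *
        ht L ℓ (((((j : ℝ) + s) * ℓ : ℝ) : AddCircle L) -
          ((((k : ℕ) : ℝ) * ℓ : ℝ) : AddCircle L)) =
      (1 - s) * (F ((k : ℕ) : ℤ) * dl (2 * m) (((k : ℕ) : ℤ) - j)) +
        s * (F ((k : ℕ) : ℤ) * dl (2 * m) (((k : ℕ) : ℤ) - (j + 1))) := by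
    intro k
    have h3 := ht_explicit h2 hℓ hL j ((k : ℕ) : ℤ) hs0 hs1
    rw [Int.cast_natCast] at h3
    rw [h3, hFd]
    simp only [Int.cast_natCast]
    ring
  rw [Finset.sum_congr rfl fun k _ => e k, Finset.sum_add_distrib, ← Finset.mul_sum,
    ← Finset.mul_sum, sum_dl (by omega) j F hF, sum_dl (by omega) (j + 1) F hF, hFd]

/-- variation of the hat functions on the circle -/
lemma var_one {L ℓ : ℝ} {m : ℕ} (hm : 2 ≤ m) (hℓ : 0 < ℓ) (hL : L = m * ℓ) (y y' : AddCircle L) :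
    ∑ k : Fin m, |ht L ℓ (y - ((((k : ℕ) : ℝ) * ℓ : ℝ) : AddCircle L)) -
      ht L ℓ (y' - ((((k : ℕ) : ℝ) * ℓ : ℝ) : AddCircle L))| ≤ 4 * (‖y - y'‖ / ℓ) := by
  have hmR : (2 : ℝ) ≤ m := by exact_mod_cast hm
  have hlt : ℓ < L := by rw [hL]; nlinarith
  obtain ⟨j, s, hs0, hs1, hy⟩ := exists_coord hℓ y
  obtain ⟨j', s', hs0', hs1', hy'⟩ := exists_coord hℓ y'
  have hlip : ∀ w w' : AddCircle L, |ht L ℓ w - ht L ℓ w'| ≤ ‖w - w'‖ / ℓ := by
    intro w w'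
    unfold ht
    rw [if_pos hlt, if_pos hlt]
    have h1 := abs_max_sub_max_le_abs (1 - ‖w‖ / ℓ) (1 - ‖w'‖ / ℓ) 0
    rw [max_comm 0, max_comm 0]
    refine h1.trans ?_
    have e : 1 - ‖w‖ / ℓ - (1 - ‖w'‖ / ℓ) = -((‖w‖ - ‖w'‖) / ℓ) := by ring
    rw [e, abs_neg, abs_div, abs_of_pos hℓ]
    gcongr
    exact abs_norm_sub_norm_le w w'
  have hd : 0 ≤ ‖y - y'‖ / ℓ := by positivity
  have hpt : ∀ k : Fin m, |ht L ℓ (y - ((((k : ℕ) : ℝ) * ℓ : ℝ) : AddCircle L)) -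
      ht L ℓ (y' - ((((k : ℕ) : ℝ) * ℓ : ℝ) : AddCircle L))| ≤
      (‖y - y'‖ / ℓ) * (dl m (((k : ℕ) : ℤ) - j) + dl m (((k : ℕ) : ℤ) - (j + 1)) +
        dl m (((k : ℕ) : ℤ) - j') + dl m (((k : ℕ) : ℤ) - (j' + 1))) := by
    intro k
    have h3 := ht_explicit hm hℓ hL j ((k : ℕ) : ℤ) hs0 hs1
    have h4 := ht_explicit hm hℓ hL j' ((k : ℕ) : ℤ) hs0' hs1'
    rw [Int.cast_natCast, ← hy] at h3
    rw [Int.cast_natCast, ← hy'] at h4
    have n1 := dl_nonneg m (((k : ℕ) : ℤ) - j)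
    have n2 := dl_nonneg m (((k : ℕ) : ℤ) - (j + 1))
    have n3 := dl_nonneg m (((k : ℕ) : ℤ) - j')
    have n4 := dl_nonneg m (((k : ℕ) : ℤ) - (j' + 1))
    have hone : ∀ x : ℤ, dl m x = 0 ∨ dl m x = 1 := by
      intro x; unfold dl; split_ifs <;> simp
    by_cases hz : dl m (((k : ℕ) : ℤ) - j) = 0 ∧ dl m (((k : ℕ) : ℤ) - (j + 1)) = 0 ∧
        dl m (((k : ℕ) : ℤ) - j') = 0 ∧ dl m (((k : ℕ) : ℤ) - (j' + 1)) = 0
    · obtain ⟨z1, z2, z3, z4⟩ := hz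
      rw [h3, h4, z1, z2, z3, z4]
      simp
    · have hge : 1 ≤ dl m (((k : ℕ) : ℤ) - j) + dl m (((k : ℕ) : ℤ) - (j + 1)) +
          dl m (((k : ℕ) : ℤ) - j') + dl m (((k : ℕ) : ℤ) - (j' + 1)) := by
        by_contra hcon
        push Not at hcon
        apply hz
        refine ⟨?_, ?_, ?_, ?_⟩
        · rcases hone (((k : ℕ) : ℤ) - j) with h | h
          · exact h
          · linarith
        · rcases hone (((k : ℕ) : ℤ) - (j + 1)) with h | h
          · exact h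
          · linarith
        · rcases hone (((k : ℕ) : ℤ) - j') with h | h
          · exact h
          · linarith
        · rcases hone (((k : ℕ) : ℤ) - (j' + 1)) with h | h
          · exact h
          · linarith
      have h5 := hlip (y - ((((k : ℕ) : ℝ) * ℓ : ℝ) : AddCircle L))
        (y' - ((((k : ℕ) : ℝ) * ℓ : ℝ) : AddCircle L))
      rw [sub_sub_sub_cancel_right] at h5
      exact h5.trans (le_mul_of_one_le_right hd hge)
  refine (Finset.sum_le_sum fun k _ => hpt k).trans (le_of_eq ?_)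
  rw [← Finset.mul_sum, Finset.sum_add_distrib, Finset.sum_add_distrib, Finset.sum_add_distrib,
    sum_dl_one (by omega), sum_dl_one (by omega), sum_dl_one (by omega), sum_dl_one (by omega)]
  ring

end Pool.Agent.W816.CB
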